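import Pool.Agent.J4H94.GP.Glue

set_option autoImplicit false

/-!
# MP_eba1ef_gt: generalized permutohedra

Let `f` be a submodular function on the subsets of a finite set `V`, `f ∅ = 0`. Its base polytope is
the set of all `x ∈ ℝ^V` with `x(V) = f(V)` and `x(X) ≤ f(X)` for all `X ⊆ V`. These polytopes are
the generalized permutohedra (deformations of the permutohedron; their edges are parallel to
differences of unit vectors): among them are the permutohedra, associahedra, hypersimplices, matroid
base polytopes, graphical zonotopes, and the parallelotopes and simplices.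

It is proved that the Levi-Hadwiger conjecture holds for them, in all dimensions: a generalized
permutohedron (or an affinely equivalent polytope) `A` of dimension `k` is covered by `2 ^ k`
translates of its relative interior. Consequently, if a convex body `K ⊆ ℝ^n` is the Minkowski
sum of such a polytope `A` and any set `B`, then `K` is covered by `2 ^ dim A * M` translates of its
interior, if the projection of `K` along the linear span of `A - A` is covered by `M` translates of
its interior; and `K` is covered by `2 ^ n` translates of its interior if `dim A ≥ n - 2` (in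
particular if `dim A = n`).

The proof. It suffices to illuminate the vertices. Suppose that `V` has `k + 1` elements, and fix a
root `r ∈ V`. Let `x` be a vertex; the sets `X` with `x(X) = f(X)` (tight sets) are the down-sets of
a partial order on `V`. Let `N₀ = {r}`, let `N₁` be the set of the elements below `N₀`, `N₂` the set
of the elements above `N₁`, `N₃` the set of the elements below `N₂`, and so on; since `A` has
dimension `k`, each element of `V` appears. Let `S ⊆ V \ {r}` be the set of the elements which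
appear at an odd step. There are at most `2 ^ k` sets `S`. The main point is that two vertices with
the same set `S` have the same sets `N_i`: if `N_(2i)` is the same for `x` and `x'` then, with
`M = N_(2i+1)(x)`, the sets `M`, `M ∪ S`, `S \ M`... are tight at `x` and `N_(2i) ∪ S` is tight at
`x'`, and submodularity gives that `M` is tight at `x'`. So the vector with the entries `(-β) ^ j`,
`β` small, at the elements appearing at the step `j > 0` depends only on `S`, and it illuminates
all the vertices with the set `S`, since a sum of its entries over a tight set of `x` has the sign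
of the entries of the lowest step in it.
-/

namespace Pool.Agent.Results.MP_eba1ef_gt.GeneralizedPermutohedra

open scoped Pointwise
open Pool.Agent.W677.Summand

/-- The Euclidean space `ℝ^d`. -/
abbrev Eu (d : ℕ) : Type := EuclideanSpace ℝ (Fin d)

/-- `K` is a convex body: convex, compact, with nonempty interior. -/
def IsConvexBody {d : ℕ} (K : Set (Eu d)) : Prop :=
  Convex ℝ K ∧ IsCompact K ∧ (interior K).Nonempty

/-- `K` is covered by at most `N` translates of its interior. -/
def CoveredBy {d : ℕ} (K : Set (Eu d)) (N : ℕ) : Prop :=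
  ∃ T : Finset (Eu d), T.card ≤ N ∧ K ⊆ ⋃ t ∈ T, (fun x => t + x) '' interior K

/-- `A` is covered by at most `N` translates of its relative interior. -/
def RelCoveredBy {d : ℕ} (A : Set (Eu d)) (N : ℕ) : Prop :=
  ∃ T : Finset (Eu d), T.card ≤ N ∧ A ⊆ ⋃ t ∈ T, (fun x => t + x) '' intrinsicInterior ℝ A

/-- `f` is submodular and vanishes at the empty set. -/
def IsSubmodular {N : ℕ} (f : Finset (Fin N) → ℝ) : Prop :=
  f ∅ = 0 ∧ ∀ X Y : Finset (Fin N), f (X ∪ Y) + f (X ∩ Y) ≤ f X + f Y

/-- The base polytope of `f`. -/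
def basePolytope {N : ℕ} (f : Finset (Fin N) → ℝ) : Set (Fin N → ℝ) :=
  {x | ∑ i, x i = f Finset.univ ∧ ∀ X : Finset (Fin N), ∑ i ∈ X, x i ≤ f X}

/-- `A` is a generalized permutohedron up to affine equivalence: the image of the base polytope of
a submodular function under an affine map `x ↦ Φ x + c` which is injective on this polytope. -/
def IsGenPermutohedron {d : ℕ} (A : Set (Eu d)) : Prop :=
  ∃ (N : ℕ) (f : Finset (Fin N) → ℝ) (Φ : (Fin N → ℝ) →ₗ[ℝ] Eu d) (c : Eu d), IsSubmodular f ∧
    Set.InjOn (fun x => Φ x + c) (basePolytope f) ∧ A = (fun x => Φ x + c) '' basePolytope f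

/-- The dimension of (the affine hull of) `A`. -/
noncomputable def dim {d : ℕ} (A : Set (Eu d)) : ℕ := Module.finrank ℝ (vectorSpan ℝ A)

/-- `π` is linear and onto, and its kernel is the linear span of `A - A`. -/
def IsQuotientMap {d m : ℕ} (A : Set (Eu d)) (π : Eu d → Eu m) : Prop :=
  IsLinearMap ℝ π ∧ Function.Surjective π ∧ ∀ x, π x = 0 ↔ x ∈ vectorSpan ℝ A

/-- the linear span of the differences of a convex set -/
theorem mem_span_convex {E : Type*} [AddCommGroup E] [Module ℝ E] {P : Set E}
    (hP : Convex ℝ P) (hne : P.Nonempty) {w : E} (hw : w ∈ vectorSpan ℝ P) :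
    ∃ t : ℝ, 0 ≤ t ∧ ∃ x ∈ P, ∃ y ∈ P, w = t • (x - y) := by
  rw [vectorSpan_def] at hw
  induction hw using Submodule.span_induction with
  | mem w h =>
    obtain ⟨x, hx, y, hy, rfl⟩ := h
    exact ⟨1, by norm_num, x, hx, y, hy, by simp⟩
  | zero =>
    obtain ⟨x, hx⟩ := hne
    exact ⟨0, le_refl _, x, hx, x, hx, by simp⟩
  | add u v _ _ hu hv =>
    obtain ⟨s, hs, x, hx, y, hy, rfl⟩ := hu
    obtain ⟨t, ht, x', hx', y', hy', rfl⟩ := hv
    rcases (add_nonneg hs ht).eq_or_lt with h0 | h0
    · have hs0 : s = 0 := by linarith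
      have ht0 : t = 0 := by linarith
      exact ⟨0, le_refl _, x, hx, x, hx, by simp [hs0, ht0]⟩
    · refine ⟨s + t, h0.le, (s / (s + t)) • x + (t / (s + t)) • x',
        hP hx hx' (by positivity) (by positivity) (by field_simp),
        (s / (s + t)) • y + (t / (s + t)) • y',
        hP hy hy' (by positivity) (by positivity) (by field_simp), ?_⟩
      have e1 : (s + t) * (s / (s + t)) = s := by field_simp
      have e2 : (s + t) * (t / (s + t)) = t := by field_simp
      rw [smul_sub (s + t), smul_add, smul_add, smul_smul, smul_smul, smul_smul, smul_smul, e1, e2,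
        smul_sub, smul_sub]
      abel
  | smul a u _ hu =>
    obtain ⟨s, hs, x, hx, y, hy, rfl⟩ := hu
    rcases le_total 0 a with ha | ha
    · exact ⟨a * s, mul_nonneg ha hs, x, hx, y, hy, by rw [smul_smul]⟩
    · refine ⟨-a * s, mul_nonneg (neg_nonneg.2 ha) hs, y, hy, x, hx, ?_⟩
      rw [smul_smul, ← neg_sub x y, smul_neg, neg_mul, neg_smul, neg_neg]

/-- an affine map which is injective on a convex set preserves its dimension -/
theorem finrank_of_injOn {N d : ℕ} {P : Set (Fin N → ℝ)} (hP : Convex ℝ P) (hne : P.Nonempty)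
    (Φ : (Fin N → ℝ) →ₗ[ℝ] Eu d) (c : Eu d) (h : Set.InjOn (fun x => Φ x + c) P) :
    Module.finrank ℝ (vectorSpan ℝ P) = dim ((fun x => Φ x + c) '' P) := by
  unfold dim
  have h1 : vectorSpan ℝ ((fun x => Φ x + c) '' P) = (vectorSpan ℝ P).map Φ := by
    rw [vectorSpan_def, vectorSpan_def, Submodule.map_span]
    congr 1
    ext y
    constructor
    · rintro ⟨_, ⟨x, hx, rfl⟩, _, ⟨z, hz, rfl⟩, rfl⟩
      refine ⟨x - z, ⟨x, hx, z, hz, rfl⟩, ?_⟩
      simp only [vsub_eq_sub, map_sub]
      abel
    · rintro ⟨_, ⟨x, hx, z, hz, rfl⟩, rfl⟩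
      refine ⟨_, ⟨x, hx, rfl⟩, _, ⟨z, hz, rfl⟩, ?_⟩
      simp only [vsub_eq_sub, map_sub]
      abel
  rw [h1]
  refine (LinearEquiv.finrank_eq (LinearEquiv.ofInjective (Φ.domRestrict (vectorSpan ℝ P)) ?_)).trans ?_
  · rw [← LinearMap.ker_eq_bot, LinearMap.ker_eq_bot']
    rintro ⟨w, hw⟩ h2
    obtain ⟨t, _, x, hx, y, hy, rfl⟩ := mem_span_convex hP hne hw
    rw [LinearMap.domRestrict_apply, map_smul, smul_eq_zero] at h2
    rw [Submodule.mk_eq_zero, smul_eq_zero]
    rcases h2 with h2 | h2
    · exact Or.inl h2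
    · right
      rw [map_sub, sub_eq_zero] at h2
      rw [sub_eq_zero]
      exact h hx hy (by simp only [h2])
  · rw [LinearMap.range_domRestrict]

/-- a generalized permutohedron in coordinates of its span -/
theorem cov_Lset {n : ℕ} {A : Set (Eu n)} (hA : IsGenPermutohedron A) {a₀ : Eu n} (ha₀ : a₀ ∈ A)
    (hAconv : Convex ℝ A) (ι : Eu (dim A) →ₗᵢ[ℝ] Eu n)
    (hι : ∀ x, x ∈ vectorSpan ℝ A ↔ ∃ u, ι u = x) : Cov (Lset ι A a₀) (2 ^ dim A) := by
  classical
  obtain ⟨N, f, Φ, c, hf, hinj, hAe⟩ := hA
  have hf' : Pool.Agent.J4H94.GP.IsSubmodular f := hf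
  have hne : (Pool.Agent.J4H94.GP.basePolytope f).Nonempty := by
    rw [hAe] at ha₀
    obtain ⟨x, hx, _⟩ := ha₀
    exact ⟨x, hx⟩
  have hAe' : A = (fun x => Φ x + c) '' Pool.Agent.J4H94.GP.basePolytope f := hAe
  obtain ⟨W, i1, i2, g, Ψ, e, hW, hg, hgA⟩ := Pool.Agent.J4H94.GP.reduce N (Fin N) f Φ c (dim A)
    (Fintype.card_fin N) hf' hne (by rw [← hAe']; rfl) (by
      rw [finrank_of_injOn Pool.Agent.J4H94.GP.base_convex hne Φ c hinj, ← hAe'])
  -- a linear left inverse of `ι`
  obtain ⟨q, hq⟩ : ∃ q : Eu n →ₗ[ℝ] Eu (dim A), ∀ u, q (ι u) = u := by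
    obtain ⟨q, hq⟩ := LinearMap.exists_leftInverse_of_injective ι.toLinearMap
      (LinearMap.ker_eq_bot.2 ι.injective)
    exact ⟨q, fun u => LinearMap.congr_fun hq u⟩
  have hmem : ∀ z, z ∈ A ↔ ∃ x ∈ Pool.Agent.J4H94.GP.basePolytope g, Ψ x + e = z := by
    intro z
    rw [hAe', hgA]
    rfl
  have hL : Lset ι A a₀ = Pool.Agent.J4H94.GP.im (q ∘ₗ Ψ) (q (e - a₀)) g := by
    ext u
    show a₀ + ι u ∈ A ↔ _
    constructor
    · intro hu
      obtain ⟨x, hx, hxu⟩ := (hmem _).1 hu
      refine ⟨x, hx, ?_⟩
      simp only [LinearMap.coe_comp, Function.comp_apply]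
      rw [← map_add, show Ψ x + (e - a₀) = (Ψ x + e) - a₀ by abel, hxu, add_sub_cancel_left, hq]
    · rintro ⟨x, hx, hxu⟩
      simp only [LinearMap.coe_comp, Function.comp_apply] at hxu
      have h1 : Ψ x + e ∈ A := (hmem _).2 ⟨x, hx, rfl⟩
      obtain ⟨v, hv⟩ := (hι _).1 (vsub_mem_vectorSpan ℝ h1 ha₀)
      have h2 : u = v := by
        rw [← hxu, ← map_add, show Ψ x + (e - a₀) = (Ψ x + e) - a₀ by abel]
        rw [vsub_eq_sub] at hv
        rw [← hv, hq]
      rw [h2, hv, vsub_eq_sub, add_sub_cancel]
      exact h1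
  rw [hL]
  have hint : (interior (Pool.Agent.J4H94.GP.im (q ∘ₗ Ψ) (q (e - a₀)) g)).Nonempty := by
    rw [← hL]
    exact Lset_int hι ha₀ hAconv
  obtain ⟨r⟩ : Nonempty W := Fintype.card_pos_iff.1 (by omega)
  exact Pool.Agent.J4H94.GP.cov_image _ _ hint hg r hW

/-- **Main theorem.** Let `A ⊆ ℝ^n` be a generalized permutohedron (up to affine equivalence), of
any dimension. Then `A` is covered by `2 ^ dim A` translates of its relative interior. Moreover,
let `K = A + B` be a convex body, `B` any set. Then
1. if `π` is a linear map onto `ℝ^m` with kernel the linear span of `A - A`, and `π K` is covered by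
`M` translates of its interior, then `K` is covered by `2 ^ dim A * M` translates of its interior;
2. if `dim A ≥ n - 2` (for example `dim A = n`), then `K` is covered by `2 ^ n` translates of its
interior. -/
theorem result (n : ℕ) (A : Set (Eu n)) (hA : IsGenPermutohedron A) :
    RelCoveredBy A (2 ^ dim A) ∧
    ∀ K B : Set (Eu n), IsConvexBody K → K = A + B →
      (∀ (m : ℕ) (π : Eu n → Eu m) (M : ℕ), IsQuotientMap A π → CoveredBy (π '' K) M →
        CoveredBy K (2 ^ dim A * M)) ∧
      (n ≤ dim A + 2 → CoveredBy K (2 ^ n)) := by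
  classical
  have hAconv : Convex ℝ A := by
    obtain ⟨N, f, Φ, c, _, _, rfl⟩ := hA
    have h1 := (Pool.Agent.J4H94.GP.base_convex (f := f)).linear_image Φ
    have h2 := h1.translate c
    have h3 : (fun x => Φ x + c) '' basePolytope f =
        (fun z => c + z) '' (Φ '' basePolytope f) := by
      rw [Set.image_image]
      simp only [add_comm]
    rw [h3]
    exact h2
  have hAcomp : IsCompact A := by
    obtain ⟨N, f, Φ, c, _, _, rfl⟩ := hA
    refine IsCompact.image (Pool.Agent.J4H94.GP.base_compact (f := f)) ?_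
    have := Φ.continuous_of_finiteDimensional
    fun_prop
  rcases A.eq_empty_or_nonempty with h0 | ⟨a₀, ha₀⟩
  · subst h0
    refine ⟨⟨∅, by simp, Set.empty_subset _⟩, fun K B hK hsum => ?_⟩
    rw [Set.empty_add] at hsum
    exact absurd hK.2.2 (by rw [hsum]; simp)
  obtain ⟨ι, hι⟩ := coords (vectorSpan ℝ A) (k := dim A) rfl
  have hL := cov_Lset hA ha₀ hAconv ι hι
  refine ⟨rel_of_cov hι ha₀ hL, fun K B hK hsum => ?_⟩
  have key : ∀ (m : ℕ) (π : Eu n →L[ℝ] Eu m) (M : ℕ), Function.Surjective π →
      (∀ x, π x = 0 ↔ x ∈ vectorSpan ℝ A) → Cov (π '' K) M →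
      Cov K (2 ^ dim A * M) := by
    intro m π M hπ hker hM
    exact bound' hι ha₀ hAconv hAcomp hK.1 hK.2.1 hK.2.2 hsum π (Function.surjInv hπ)
      (Function.surjInv_eq hπ) (fun y hy => (hker y).1 hy) _ M hL hM
  refine ⟨?_, ?_⟩
  · intro m π M hπ hM
    obtain ⟨hlin, hsurj, hk⟩ := hπ
    exact key m (LinearMap.toContinuousLinearMap (hlin.mk' π)) M hsurj hk hM
  · intro h1
    have hdn : dim A ≤ n := by
      have := Submodule.finrank_le (vectorSpan ℝ A)
      rwa [finrank_euclideanSpace, Fintype.card_fin] at this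
    obtain ⟨m, hm⟩ : ∃ m, dim A + m = n := ⟨n - dim A, by omega⟩
    obtain ⟨p, hp, hker⟩ := quot (vectorSpan ℝ A) (m := m) hm
    have hQ : IsConvexBody (p '' K) := by
      refine ⟨hK.1.linear_image p.toLinearMap, hK.2.1.image p.continuous, ?_⟩
      have h4 : p '' (interior K) ⊆ interior (p '' K) :=
        interior_maximal (Set.image_mono interior_subset)
          (ContinuousLinearMap.isOpenMap _ hp _ isOpen_interior)
      exact (hK.2.2.image p).mono h4
    have h3 := key m p _ hp hker (body_le_two (by omega) hQ)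
    rwa [← pow_add, hm] at h3

end Pool.Agent.Results.MP_eba1ef_gt.GeneralizedPermutohedra
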